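import Pool.Agent.Lib.MP_3ee548_nt.RS.Iface

/-!
# POS1 (helper57)

The number of pairs with `|s i - s j| ≤ 1/T` is at most `8/T` times the integral of the square of a
trigonometric sum with nonnegative weights, by positivity of the Fejér kernel.
-/

set_option autoImplicit false

open scoped BigOperators
open Classical

namespace Pool.Agent.Lib.MP_3ee548_nt.RS.H57

/-- Real form of the square of a trigonometric sum. -/
theorem norm_sq_sum {α : Type} (s w : α → ℝ) (F : Finset α) (t : ℝ) :
    ‖∑ i ∈ F, ((w i : ℝ) : ℂ) * e (t * s i)‖ ^ 2 =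
      ∑ p ∈ F ×ˢ F, w p.1 * w p.2 * Real.cos (2 * Real.pi * t * (s p.1 - s p.2)) := by
  have hre : (∑ i ∈ F, ((w i : ℝ) : ℂ) * e (t * s i)).re =
      ∑ i ∈ F, w i * Real.cos (2 * Real.pi * (t * s i)) := by
    rw [Complex.re_sum]
    refine Finset.sum_congr rfl fun i _ => ?_
    unfold e
    rw [Complex.re_ofReal_mul, Complex.exp_ofReal_mul_I_re]
  have him : (∑ i ∈ F, ((w i : ℝ) : ℂ) * e (t * s i)).im =
      ∑ i ∈ F, w i * Real.sin (2 * Real.pi * (t * s i)) := by
    rw [Complex.im_sum]
    refine Finset.sum_congr rfl fun i _ => ?_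
    unfold e
    rw [Complex.im_ofReal_mul, Complex.exp_ofReal_mul_I_im]
  rw [← Complex.normSq_eq_norm_sq, Complex.normSq_apply, hre, him, Finset.sum_mul_sum,
    Finset.sum_mul_sum, ← Finset.sum_add_distrib, Finset.sum_product]
  refine Finset.sum_congr rfl fun i _ => ?_
  rw [← Finset.sum_add_distrib]
  refine Finset.sum_congr rfl fun j _ => ?_
  have h1 : 2 * Real.pi * t * (s i - s j) = 2 * Real.pi * (t * s i) - 2 * Real.pi * (t * s j) := by
    ring
  rw [h1, Real.cos_sub]
  ring

/-- The cosine integral. -/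
noncomputable def CI (U x : ℝ) : ℝ := ∫ u in (-(U / 2))..(U / 2), Real.cos (2 * Real.pi * u * x)

theorem sin_int (U x : ℝ) : ∫ u in (-(U / 2))..(U / 2), Real.sin (2 * Real.pi * u * x) = 0 := by
  have h1 : ∫ u in (-(U / 2))..(U / 2), Real.sin (2 * Real.pi * (-u) * x) =
      ∫ u in (-(U / 2))..(U / 2), Real.sin (2 * Real.pi * u * x) := by
    have := intervalIntegral.integral_comp_neg (a := -(U / 2)) (b := U / 2)
      (fun u : ℝ => Real.sin (2 * Real.pi * u * x))
    rw [neg_neg] at this
    exact this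
  have h2 : ∫ u in (-(U / 2))..(U / 2), Real.sin (2 * Real.pi * (-u) * x) =
      - ∫ u in (-(U / 2))..(U / 2), Real.sin (2 * Real.pi * u * x) := by
    rw [← intervalIntegral.integral_neg]
    refine intervalIntegral.integral_congr fun u _ => ?_
    change Real.sin (2 * Real.pi * (-u) * x) = -Real.sin (2 * Real.pi * u * x)
    rw [show 2 * Real.pi * (-u) * x = -(2 * Real.pi * u * x) by ring, Real.sin_neg]
  linarith

theorem inner_int (U x v : ℝ) :
    ∫ u in (-(U / 2))..(U / 2), Real.cos (2 * Real.pi * (u - v) * x) =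
      CI U x * Real.cos (2 * Real.pi * v * x) := by
  have h1 : ∀ u : ℝ, Real.cos (2 * Real.pi * (u - v) * x) =
      Real.cos (2 * Real.pi * u * x) * Real.cos (2 * Real.pi * v * x) +
      Real.sin (2 * Real.pi * u * x) * Real.sin (2 * Real.pi * v * x) := by
    intro u
    rw [show 2 * Real.pi * (u - v) * x = 2 * Real.pi * u * x - 2 * Real.pi * v * x by ring,
      Real.cos_sub]
  simp only [h1]
  rw [intervalIntegral.integral_add, intervalIntegral.integral_mul_const,
    intervalIntegral.integral_mul_const, sin_int, zero_mul, add_zero, CI]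
  · exact Continuous.intervalIntegrable (by fun_prop) _ _
  · exact Continuous.intervalIntegrable (by fun_prop) _ _

theorem CI_ge {U x : ℝ} (hU : 0 < U) (hx : |x| ≤ 1 / (2 * U)) : U / 2 ≤ CI U x := by
  have hx2 : x ^ 2 ≤ 1 / (4 * U ^ 2) := by
    rw [← sq_abs]
    calc |x| ^ 2 ≤ (1 / (2 * U)) ^ 2 := by gcongr
      _ = 1 / (4 * U ^ 2) := by rw [div_pow]; ring
  have h1 : ∫ u in (-(U / 2))..(U / 2), (1 - 2 * Real.pi ^ 2 * x ^ 2 * u ^ 2) ≤ CI U x := by
    unfold CI
    refine intervalIntegral.integral_mono_on (by linarith)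
      (Continuous.intervalIntegrable (by fun_prop) _ _)
      (Continuous.intervalIntegrable (by fun_prop) _ _) fun u _ => ?_
    have := Real.one_sub_sq_div_two_le_cos (x := 2 * Real.pi * u * x)
    calc 1 - 2 * Real.pi ^ 2 * x ^ 2 * u ^ 2 = 1 - (2 * Real.pi * u * x) ^ 2 / 2 := by ring
      _ ≤ _ := this
  have h2 : ∫ u in (-(U / 2))..(U / 2), (1 - 2 * Real.pi ^ 2 * x ^ 2 * u ^ 2) =
      U - Real.pi ^ 2 * x ^ 2 * U ^ 3 / 6 := by
    rw [intervalIntegral.integral_sub, intervalIntegral.integral_const_mul, integral_pow,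
      intervalIntegral.integral_const, smul_eq_mul]
    · push_cast
      ring
    · exact Continuous.intervalIntegrable (by fun_prop) _ _
    · exact Continuous.intervalIntegrable (by fun_prop) _ _
  rw [h2] at h1
  refine le_trans ?_ h1
  have hpi : Real.pi ^ 2 ≤ 12 := by
    have := Real.pi_lt_d2
    have := Real.pi_pos
    nlinarith
  have h3 : Real.pi ^ 2 * x ^ 2 * U ^ 3 ≤ 12 * (1 / (4 * U ^ 2)) * U ^ 3 := by gcongr
  have h4 : 12 * (1 / (4 * U ^ 2)) * U ^ 3 = 3 * U := by
    field_simp
    ring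
  linarith

/-- POS1. -/
theorem pos1 : Pos1Statement := by
  intro α s w D F T hT hDF hw hw1
  obtain ⟨U, hU, rfl⟩ : ∃ U : ℝ, 0 < U ∧ T = 2 * U := ⟨T / 2, by linarith, by ring⟩
  let g : ℝ → ℝ := fun t => ‖∑ i ∈ F, ((w i : ℝ) : ℂ) * e (t * s i)‖ ^ 2
  have hgc : Continuous g := by
    simp only [g, e]
    fun_prop
  have hg0 : ∀ t, 0 ≤ g t := fun t => by positivity
  have hgs : ∀ t, g t = ∑ p ∈ F ×ˢ F, w p.1 * w p.2 *
      Real.cos (2 * Real.pi * t * (s p.1 - s p.2)) := fun t => norm_sq_sum s w F t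
  let I0 : ℝ := ∫ t in (-(2 * U))..(2 * U), g t
  -- the double integral, from above
  have hup : ∫ v in (-(U / 2))..(U / 2), ∫ u in (-(U / 2))..(U / 2), g (u - v) ≤ U * I0 := by
    have h1 : ∀ v ∈ Set.Icc (-(U / 2)) (U / 2), ∫ u in (-(U / 2))..(U / 2), g (u - v) ≤ I0 := by
      intro v hv
      rw [intervalIntegral.integral_comp_sub_right]
      refine intervalIntegral.integral_mono_interval ?_ ?_ ?_ (Filter.Eventually.of_forall hg0)
        (hgc.intervalIntegrable _ _)
      · linarith [hv.1, hv.2]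
      · linarith [hv.1, hv.2]
      · linarith [hv.1, hv.2]
    have h2 : Continuous fun v => ∫ u in (-(U / 2))..(U / 2), g (u - v) := by
      refine intervalIntegral.continuous_parametric_intervalIntegral_of_continuous' ?_ _ _
      exact hgc.comp (continuous_snd.sub continuous_fst)
    calc ∫ v in (-(U / 2))..(U / 2), ∫ u in (-(U / 2))..(U / 2), g (u - v)
        ≤ ∫ _v in (-(U / 2))..(U / 2), I0 :=
          intervalIntegral.integral_mono_on (by linarith) (h2.intervalIntegrable _ _)
            (continuous_const.intervalIntegrable _ _) h1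
      _ = U * I0 := by
          rw [intervalIntegral.integral_const, smul_eq_mul]
          ring
  -- the double integral, exactly
  have heq : ∫ v in (-(U / 2))..(U / 2), ∫ u in (-(U / 2))..(U / 2), g (u - v) =
      ∑ p ∈ F ×ˢ F, w p.1 * w p.2 * CI U (s p.1 - s p.2) ^ 2 := by
    have h1 : ∀ v : ℝ, ∫ u in (-(U / 2))..(U / 2), g (u - v) =
        ∑ p ∈ F ×ˢ F, w p.1 * w p.2 * (CI U (s p.1 - s p.2) *
          Real.cos (2 * Real.pi * v * (s p.1 - s p.2))) := by
      intro v
      simp only [hgs]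
      rw [intervalIntegral.integral_finsetSum]
      · refine Finset.sum_congr rfl fun p _ => ?_
        rw [intervalIntegral.integral_const_mul, inner_int]
      · intro p _
        exact Continuous.intervalIntegrable (by fun_prop) _ _
    simp only [h1]
    rw [intervalIntegral.integral_finsetSum]
    · refine Finset.sum_congr rfl fun p _ => ?_
      rw [intervalIntegral.integral_const_mul, intervalIntegral.integral_const_mul]
      change w p.1 * w p.2 * (CI U (s p.1 - s p.2) * CI U (s p.1 - s p.2)) = _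
      ring
    · intro p _
      exact Continuous.intervalIntegrable (by fun_prop) _ _
  -- the double integral, from below
  have hlow : PC s D (2 * U) * (U / 2) ^ 2 ≤
      ∑ p ∈ F ×ˢ F, w p.1 * w p.2 * CI U (s p.1 - s p.2) ^ 2 := by
    have hsub : (D ×ˢ D).filter (fun p : α × α => |s p.1 - s p.2| ≤ 1 / (2 * U)) ⊆ F ×ˢ F :=
      (Finset.filter_subset _ _).trans (Finset.product_subset_product hDF hDF)
    refine le_trans ?_ (Finset.sum_le_sum_of_subset_of_nonneg hsub fun p hp _ => ?_)
    · unfold PC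
      rw [← nsmul_eq_mul]
      refine Finset.card_nsmul_le_sum _ _ _ fun p hp => ?_
      obtain ⟨hp1, hp2⟩ := Finset.mem_filter.1 hp
      obtain ⟨hp3, hp4⟩ := Finset.mem_product.1 hp1
      have h1 := CI_ge hU hp2
      have h2 : (U / 2) ^ 2 ≤ CI U (s p.1 - s p.2) ^ 2 := by gcongr
      have h3 : 1 ≤ w p.1 * w p.2 := by
        have a1 := hw1 _ hp3
        have a2 := hw1 _ hp4
        nlinarith
      calc (U / 2) ^ 2 = 1 * (U / 2) ^ 2 := (one_mul _).symm
        _ ≤ w p.1 * w p.2 * CI U (s p.1 - s p.2) ^ 2 := by gcongr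
    · obtain ⟨hp3, hp4⟩ := Finset.mem_product.1 hp
      exact mul_nonneg (mul_nonneg (hw _ hp3) (hw _ hp4)) (sq_nonneg _)
  have hfin : PC s D (2 * U) * (U / 2) ^ 2 ≤ U * I0 := (hlow.trans heq.ge).trans hup
  change PC s D (2 * U) ≤ 8 / (2 * U) * I0
  rw [div_mul_eq_mul_div, le_div_iff₀ (by positivity)]
  have h5 : PC s D (2 * U) * U ≤ 4 * I0 := by
    refine le_of_mul_le_mul_right ?_ hU
    nlinarith
  linarith

end Pool.Agent.Lib.MP_3ee548_nt.RS.H57
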