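import Pool.Agent.Lib.MP_3ee548_nt.RS.Iface
import Pool.Agent.Lib.MP_3ee548_nt.RS.H16.Shift

/-!
# POS2 (helper57)

The integral of the square of a trigonometric sum over `[-T, T]` is at most `C T` times the number
of pairs with `|s i - s j| ≤ 1/T`: Gaussian weight and bins.
-/

set_option autoImplicit false

open scoped BigOperators
open Classical MeasureTheory

namespace Pool.Agent.Lib.MP_3ee548_nt.RS.H57

/-- The Gaussian weight. -/
noncomputable def gw (T t : ℝ) : ℝ := Real.exp (-Real.pi * t ^ 2 / T ^ 2)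

theorem gw_pos (T t : ℝ) : 0 < gw T t := Real.exp_pos _

theorem gauss_eq (T x t : ℝ) : ((gw T t : ℝ) : ℂ) * e (t * x) =
    Complex.exp ((-Real.pi / T ^ 2 : ℂ) * (t : ℂ) ^ 2 + (2 * Real.pi * x * Complex.I) * t + 0) := by
  unfold gw e
  rw [Complex.ofReal_exp, ← Complex.exp_add]
  congr 1
  push_cast
  ring

theorem re_neg {T : ℝ} (hT : 0 < T) : ((-Real.pi / T ^ 2 : ℂ)).re < 0 := by
  have h : (-Real.pi / T ^ 2 : ℂ) = ((-Real.pi / T ^ 2 : ℝ) : ℂ) := by push_cast; rfl
  rw [h, Complex.ofReal_re]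
  have := Real.pi_pos
  exact div_neg_of_neg_of_pos (by linarith) (by positivity)

theorem gauss_integrable {T : ℝ} (hT : 0 < T) (x : ℝ) :
    Integrable fun t : ℝ => ((gw T t : ℝ) : ℂ) * e (t * x) := by
  simp only [gauss_eq]
  exact integrable_cexp_quadratic' (re_neg hT) _ _

theorem gauss_int {T : ℝ} (hT : 0 < T) (x : ℝ) :
    ‖∫ t : ℝ, ((gw T t : ℝ) : ℂ) * e (t * x)‖ = T * Real.exp (-Real.pi * (T * x) ^ 2) := by
  simp only [gauss_eq]
  rw [integral_cexp_quadratic (re_neg hT), norm_mul]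
  have hT' : (T : ℂ) ≠ 0 := by exact_mod_cast hT.ne'
  have hpi : (Real.pi : ℂ) ≠ 0 := by exact_mod_cast Real.pi_ne_zero
  have h1 : ((Real.pi : ℂ) / -(-Real.pi / T ^ 2 : ℂ)) = ((T ^ 2 : ℝ) : ℂ) := by
    push_cast
    field_simp
  have h2 : (0 - (2 * Real.pi * x * Complex.I) ^ 2 / (4 * (-Real.pi / T ^ 2 : ℂ)) : ℂ) =
      ((-Real.pi * (T * x) ^ 2 : ℝ) : ℂ) := by
    rw [mul_pow, Complex.I_sq]
    push_cast
    field_simp
    ring
  rw [h1, h2, ← Complex.ofReal_exp, Complex.norm_real, Real.norm_of_nonneg (Real.exp_pos _).le]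
  congr 1
  have h3 : ((1 / 2 : ℂ)) = ((1 / 2 : ℝ) : ℂ) := by push_cast; rfl
  rw [h3, ← Complex.ofReal_cpow (by positivity), Complex.norm_real,
    Real.norm_of_nonneg (by positivity), ← Real.sqrt_eq_rpow, Real.sqrt_sq hT.le]

/-- Complex form of the square of a trigonometric sum. -/
theorem ofReal_norm_sq {α : Type} (s : α → ℝ) (c : α → ℂ) (D : Finset α) (t : ℝ) :
    ((‖∑ i ∈ D, c i * e (t * s i)‖ ^ 2 : ℝ) : ℂ) =
      ∑ p ∈ D ×ˢ D, c p.1 * (starRingEnd ℂ) (c p.2) * e (t * (s p.1 - s p.2)) := by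
  rw [← Complex.normSq_eq_norm_sq, ← Complex.mul_conj, map_sum, Finset.sum_mul_sum,
    Finset.sum_product]
  refine Finset.sum_congr rfl fun i _ => Finset.sum_congr rfl fun j _ => ?_
  have h1 : (starRingEnd ℂ) (e (t * s j)) = e (-(t * s j)) := by
    unfold e
    rw [← Complex.exp_conj, map_mul, Complex.conj_I, Complex.conj_ofReal]
    congr 1
    push_cast
    ring
  have h2 : e (t * (s i - s j)) = e (t * s i) * e (-(t * s j)) := by
    unfold e
    rw [← Complex.exp_add]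
    congr 1
    push_cast
    ring
  rw [map_mul, h1, h2]
  ring

theorem exp_le_pow (y : ℝ) : Real.exp (-Real.pi * y ^ 2) ≤ 4 * (1 / 2 : ℝ) ^ (⌊y⌋.natAbs) := by
  have h1 : ((⌊y⌋.natAbs : ℕ) : ℝ) ≤ |y| + 1 := by
    rw [Nat.cast_natAbs, Int.cast_abs]
    have a1 := Int.floor_le y
    have a2 := Int.lt_floor_add_one y
    rw [abs_le]
    constructor
    · have := neg_abs_le y
      linarith
    · have := le_abs_self y
      linarith
  have h2 : (1 / 2 : ℝ) ^ (⌊y⌋.natAbs) = Real.exp (-(Real.log 2 * (⌊y⌋.natAbs : ℕ))) := by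
    rw [← Real.rpow_natCast, Real.rpow_def_of_pos (by norm_num)]
    congr 1
    rw [one_div, Real.log_inv]
    ring
  have h3 : (4 : ℝ) = Real.exp (2 * Real.log 2) := by
    rw [two_mul, Real.exp_add, Real.exp_log (by norm_num)]
    norm_num
  rw [h2, h3, ← Real.exp_add, Real.exp_le_exp]
  have hl1 := Real.log_two_gt_d9
  have hl2 := Real.log_two_lt_d9
  have hl0 : 0 < Real.log 2 := by linarith
  have hpi := Real.pi_gt_three
  have h4 : Real.log 2 * ((⌊y⌋.natAbs : ℕ) : ℝ) ≤ Real.log 2 * (|y| + 1) := by gcongr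
  have h5 : Real.log 2 * |y| ≤ 1 * |y| := by
    have := abs_nonneg y
    nlinarith
  have h6 : |y| - Real.log 2 ≤ Real.pi * y ^ 2 := by
    have h7 : 3 * y ^ 2 ≤ Real.pi * y ^ 2 := by
      have := sq_nonneg y
      nlinarith
    rw [← sq_abs] at h7 ⊢
    nlinarith [sq_nonneg (|y| - 1 / 6), abs_nonneg y]
  nlinarith

theorem sum_half_le (S : Finset ℤ) : ∑ l ∈ S, (1 / 2 : ℝ) ^ l.natAbs ≤ 4 := by
  rw [← Finset.sum_fiberwise_of_maps_to (s := S) (t := S.image Int.natAbs) (g := Int.natAbs)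
    (fun i hi => Finset.mem_image_of_mem _ hi)]
  have h1 : ∀ k ∈ S.image Int.natAbs, ∑ l ∈ S.filter (fun l => l.natAbs = k),
      (1 / 2 : ℝ) ^ l.natAbs ≤ 2 * (1 / 2 : ℝ) ^ k := by
    intro k _
    have h2 : ∑ l ∈ S.filter (fun l => l.natAbs = k), (1 / 2 : ℝ) ^ l.natAbs =
        ((S.filter (fun l => l.natAbs = k)).card : ℝ) * (1 / 2 : ℝ) ^ k := by
      rw [Finset.sum_congr rfl (g := fun _ => (1 / 2 : ℝ) ^ k)
        (fun l hl => by rw [(Finset.mem_filter.1 hl).2]), Finset.sum_const, nsmul_eq_mul]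
    rw [h2]
    have h3 : (S.filter (fun l => l.natAbs = k)).card ≤ 2 := by
      refine le_trans (Finset.card_le_card (t := {(k : ℤ), -(k : ℤ)}) ?_) Finset.card_le_two
      intro l hl
      have := (Finset.mem_filter.1 hl).2
      rw [Finset.mem_insert, Finset.mem_singleton]
      omega
    have h4 : ((S.filter (fun l => l.natAbs = k)).card : ℝ) ≤ 2 := by exact_mod_cast h3
    gcongr
  refine (Finset.sum_le_sum h1).trans ?_
  rw [← Finset.mul_sum]
  have h2 : ∑ k ∈ S.image Int.natAbs, (1 / 2 : ℝ) ^ k ≤ ∑' k : ℕ, (1 / 2 : ℝ) ^ k :=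
    summable_geometric_two.sum_le_tsum _ fun k _ => by positivity
  rw [tsum_geometric_two] at h2
  linarith

/-- The sum over all pairs. -/
theorem pairs_le {α : Type} (s : α → ℝ) (D : Finset α) {T : ℝ} (hT : 0 < T) :
    ∑ p ∈ D ×ˢ D, Real.exp (-Real.pi * (T * (s p.1 - s p.2)) ^ 2) ≤ 64 * PC s D T := by
  let l : α × α → ℤ := fun p => ⌊T * (s p.1 - s p.2)⌋
  rw [← Finset.sum_fiberwise_of_maps_to (s := D ×ˢ D) (t := (D ×ˢ D).image l) (g := l)
    (fun i hi => Finset.mem_image_of_mem _ hi)]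
  have hPC : 0 ≤ PC s D T := by unfold PC; positivity
  have h1 : ∀ a ∈ (D ×ˢ D).image l, ∑ p ∈ (D ×ˢ D).filter (fun p => l p = a),
      Real.exp (-Real.pi * (T * (s p.1 - s p.2)) ^ 2) ≤
        16 * PC s D T * (1 / 2 : ℝ) ^ a.natAbs := by
    intro a _
    have h2 : ∑ p ∈ (D ×ˢ D).filter (fun p => l p = a),
        Real.exp (-Real.pi * (T * (s p.1 - s p.2)) ^ 2) ≤
        ((D ×ˢ D).filter (fun p => l p = a)).card • (4 * (1 / 2 : ℝ) ^ a.natAbs) := by
      refine Finset.sum_le_card_nsmul _ _ _ fun p hp => ?_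
      have := exp_le_pow (T * (s p.1 - s p.2))
      rw [← (Finset.mem_filter.1 hp).2]
      exact this
    have h3 : (((D ×ˢ D).filter (fun p => l p = a)).card : ℝ) ≤ 4 * PC s D T := by
      refine le_trans ?_ (H16.shift α s D T ((a : ℝ) / T) hT)
      unfold PCz
      refine Nat.cast_le.2 (Finset.card_le_card fun p hp => ?_)
      obtain ⟨hp1, hp2⟩ := Finset.mem_filter.1 hp
      refine Finset.mem_filter.2 ⟨hp1, ?_⟩
      have a1 := Int.floor_le (T * (s p.1 - s p.2))
      have a2 := Int.lt_floor_add_one (T * (s p.1 - s p.2))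
      have hp2' : ⌊T * (s p.1 - s p.2)⌋ = a := hp2
      rw [hp2'] at a1 a2
      have h4 : s p.1 - s p.2 - a / T = (T * (s p.1 - s p.2) - a) / T := by
        field_simp
      rw [h4, abs_div, abs_of_pos hT, abs_of_nonneg (by linarith)]
      gcongr
      linarith
    refine h2.trans ?_
    rw [nsmul_eq_mul]
    have h5 : (0 : ℝ) ≤ 4 * (1 / 2 : ℝ) ^ a.natAbs := by positivity
    calc (((D ×ˢ D).filter (fun p => l p = a)).card : ℝ) * (4 * (1 / 2 : ℝ) ^ a.natAbs)
        ≤ (4 * PC s D T) * (4 * (1 / 2 : ℝ) ^ a.natAbs) := mul_le_mul_of_nonneg_right h3 h5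
      _ = _ := by ring
  refine (Finset.sum_le_sum h1).trans ?_
  rw [← Finset.mul_sum]
  have h6 := sum_half_le ((D ×ˢ D).image l)
  calc 16 * PC s D T * ∑ a ∈ (D ×ˢ D).image l, (1 / 2 : ℝ) ^ a.natAbs
      ≤ 16 * PC s D T * 4 := by gcongr
    _ = _ := by ring

/-- POS2. -/
theorem pos2 : Pos2Statement := by
  refine ⟨64 * Real.exp Real.pi, by positivity, ?_⟩
  intro α s c D T hT hc
  let g : ℝ → ℝ := fun t => ‖∑ i ∈ D, c i * e (t * s i)‖ ^ 2
  have hgc : Continuous g := by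
    simp only [g, e]
    fun_prop
  have hg0 : ∀ t, 0 ≤ g t := fun t => by positivity
  have hterm : ∀ t : ℝ, ((gw T t * g t : ℝ) : ℂ) = ∑ p ∈ D ×ˢ D,
      c p.1 * (starRingEnd ℂ) (c p.2) * (((gw T t : ℝ) : ℂ) * e (t * (s p.1 - s p.2))) := by
    intro t
    rw [Complex.ofReal_mul]
    change ((gw T t : ℝ) : ℂ) * ((‖∑ i ∈ D, c i * e (t * s i)‖ ^ 2 : ℝ) : ℂ) = _
    rw [ofReal_norm_sq, Finset.mul_sum]
    exact Finset.sum_congr rfl fun p _ => by ring
  have hint : Integrable fun t : ℝ => ((gw T t * g t : ℝ) : ℂ) := by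
    simp only [hterm]
    exact integrable_finsetSum _ fun p _ => (gauss_integrable hT _).const_mul _
  have hintR : Integrable fun t : ℝ => gw T t * g t := by
    have := hint.re
    simpa using this
  have hbound : ∫ t : ℝ, gw T t * g t ≤ T * (64 * PC s D T) := by
    have h1 : ‖∫ t : ℝ, ((gw T t * g t : ℝ) : ℂ)‖ ≤
        ∑ p ∈ D ×ˢ D, T * Real.exp (-Real.pi * (T * (s p.1 - s p.2)) ^ 2) := by
      simp only [hterm]
      rw [integral_finsetSum _ fun p _ => (gauss_integrable hT _).const_mul _]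
      refine (norm_sum_le _ _).trans (Finset.sum_le_sum fun p hp => ?_)
      obtain ⟨hp1, hp2⟩ := Finset.mem_product.1 hp
      rw [integral_const_mul, norm_mul, norm_mul, RCLike.norm_conj, gauss_int hT]
      have h2 : ‖c p.1‖ * ‖c p.2‖ ≤ 1 := mul_le_one₀ (hc _ hp1) (norm_nonneg _) (hc _ hp2)
      exact mul_le_of_le_one_left (by positivity) h2
    have h3 : ∫ t : ℝ, gw T t * g t ≤ ‖∫ t : ℝ, ((gw T t * g t : ℝ) : ℂ)‖ := by
      rw [integral_complex_ofReal, Complex.norm_real]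
      exact le_abs_self _
    rw [← Finset.mul_sum] at h1
    refine h3.trans (h1.trans ?_)
    gcongr
    exact pairs_le s D hT
  have hmain : ∫ t in (-T)..T, g t ≤ Real.exp Real.pi * ∫ t : ℝ, gw T t * g t := by
    rw [← integral_const_mul]
    calc ∫ t in (-T)..T, g t ≤ ∫ t in (-T)..T, Real.exp Real.pi * (gw T t * g t) := by
          refine intervalIntegral.integral_mono_on (by linarith) (hgc.intervalIntegrable _ _)
            ((hintR.const_mul _).intervalIntegrable) fun t ht => ?_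
          have h1 : 1 ≤ Real.exp Real.pi * gw T t := by
            unfold gw
            rw [← Real.exp_add, Real.one_le_exp_iff]
            have h2 : t ^ 2 ≤ T ^ 2 := sq_le_sq' ht.1 ht.2
            have h3 : Real.pi * t ^ 2 / T ^ 2 ≤ Real.pi := by
              rw [div_le_iff₀ (by positivity)]
              have := Real.pi_pos
              gcongr
            have h4 : -Real.pi * t ^ 2 / T ^ 2 = -(Real.pi * t ^ 2 / T ^ 2) := by ring
            rw [h4]
            linarith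
          calc g t = 1 * g t := (one_mul _).symm
            _ ≤ (Real.exp Real.pi * gw T t) * g t := mul_le_mul_of_nonneg_right h1 (hg0 t)
            _ = _ := by ring
      _ = ∫ t in Set.Ioc (-T) T, Real.exp Real.pi * (gw T t * g t) :=
          intervalIntegral.integral_of_le (by linarith)
      _ ≤ ∫ t : ℝ, Real.exp Real.pi * (gw T t * g t) := by
          refine setIntegral_le_integral (hintR.const_mul _) (Filter.Eventually.of_forall fun t => ?_)
          exact mul_nonneg (Real.exp_pos _).le (mul_nonneg (gw_pos _ _).le (hg0 t))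
  refine hmain.trans ?_
  calc Real.exp Real.pi * ∫ t : ℝ, gw T t * g t
      ≤ Real.exp Real.pi * (T * (64 * PC s D T)) := by gcongr
    _ = _ := by ring

end Pool.Agent.Lib.MP_3ee548_nt.RS.H57
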